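import Pool.Agent.N922.PQ.Stm2
import Pool.Agent.N42.PQ.C2p

/-!
# Properties of the conditions at the primes over `2` (part `S_C2W` of project PV; helper61)

After `Pool/Agent/N42/PQ/C2p.lean`.
-/

set_option autoImplicit false
set_option linter.all false

open Polynomial IsDedekindDomain NumberField
open scoped Classical IntermediateField

namespace Pool.Agent.N61.PV

open Pool.Agent.N922.PQ
open Pool.Agent.N42.PQ (minpoly_eq exists_rep)

/-- the condition depends only on the class modulo the cubic polynomial -/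
theorem pl_congr {F : Type} [Field F] {a b : ℤ} {h h' : F[X]}
    (hd : ff F a b ∣ h - h') (hp : PL F a b h) : PL F a b h' := by
  rcases hp with ⟨g, hg⟩ | ⟨x, y, hy, hxy, g, hg⟩
  · left
    refine ⟨g, ?_⟩
    have e : h' - g ^ 2 = (h - g ^ 2) - (h - h') := by ring
    rw [e]
    exact dvd_sub hg hd
  · right
    refine ⟨x, y, hy, hxy, g, ?_⟩
    have e : (C x - X) * h' - g ^ 2 = ((C x - X) * h - g ^ 2) - (C x - X) * (h - h') := by ring
    rw [e]
    exact dvd_sub hg (hd.mul_left _)

theorem ff_map {F F' : Type} [Field F] [Field F'] (s : F →+* F') (a b : ℤ) :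
    (ff F a b).map s = ff F' a b := by
  simp [ff]

/-- the image under a homomorphism of fields -/
theorem pl_map {F F' : Type} [Field F] [Field F'] (s : F →+* F') {a b : ℤ} {h : F[X]}
    (hp : PL F a b h) : PL F' a b (h.map s) := by
  rcases hp with ⟨g, hg⟩ | ⟨x, y, hy, hxy, g, hg⟩
  · left
    refine ⟨g.map s, ?_⟩
    have h1 := Polynomial.map_dvd s hg
    rw [ff_map] at h1
    simpa using h1
  · right
    refine ⟨s x, s y, ?_, ?_, g.map s, ?_⟩
    · intro h0
      exact hy (s.injective (by rw [h0, map_zero]))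
    · have h1 := congrArg s hxy
      simpa using h1
    · have h1 := Polynomial.map_dvd s hg
      rw [ff_map] at h1
      simpa using h1

theorem dvd_map {M Ω F : Type} [Field M] [Field Ω] [Algebra M Ω] [Field F] {a b : ℤ} {θ : Ω}
    (hr : θ ^ 3 + (a : Ω) * θ + (b : Ω) = 0) (h3 : Module.finrank M Ω = 3)
    (ht : M⟮θ⟯ = ⊤) (φ : M →+* F) {h h' : M[X]} (he : aeval θ h = aeval θ h') :
    ff F a b ∣ h.map φ - h'.map φ := by
  have h1 : minpoly M θ ∣ h - h' := minpoly.dvd M θ (by rw [map_sub, he, sub_self])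
  rw [minpoly_eq hr h3 ht] at h1
  have h2 := Polynomial.map_dvd φ h1
  rw [Polynomial.map_sub] at h2
  unfold ff
  simpa using h2

theorem c2w (h1 : S_PLM2) (h2 : S_EXT) : S_C2W := by
  intro L M Ω R _ _ _ _ _ _ _ _ _ _ _ _ _ _ a b θ hz hroot hcub h3 ht
  have hr : (algebraMap L Ω θ) ^ 3 + (a : Ω) * (algebraMap L Ω θ) + (b : Ω) = 0 := by
    have h := congrArg (algebraMap L Ω) hcub.root
    simpa only [map_add, map_mul, map_pow, map_intCast, map_zero] using h
  refine ⟨?_, ?_, ?_⟩
  · intro x w hw h hh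
    obtain ⟨k, hk⟩ := exists_rep h3 ht x
    left
    refine ⟨k.map (algebraMap M (w.adicCompletion M)), ?_⟩
    have h4 := dvd_map hr h3 ht (algebraMap M (w.adicCompletion M)) (h := h) (h' := k ^ 2)
      (by rw [hh, map_pow, hk])
    rwa [Polynomial.map_pow] at h4
  · intro x y hx hy w hw h hh
    obtain ⟨k, hk⟩ := exists_rep h3 ht x
    obtain ⟨l, hl⟩ := exists_rep h3 ht y
    have hchar : CharZero (w.adicCompletion M) :=
      charZero_of_injective_algebraMap (algebraMap M (w.adicCompletion M)).injective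
    have h4 := h1 (w.adicCompletion M) a b hz (hroot w hw)
      (k.map (algebraMap M (w.adicCompletion M))) (l.map (algebraMap M (w.adicCompletion M)))
      (hx w hw k hk) (hy w hw l hl)
    rw [← Polynomial.map_mul] at h4
    exact pl_congr (dvd_map hr h3 ht _ (by rw [hh, map_mul, hk, hl])) h4
  · intro σ x hx w hw h hh
    obtain ⟨σ', hσ'⟩ : ∃ σ' : Ω ≃ₐ[ℚ] Ω, ∀ z, σ' z = σ z :=
      ⟨AlgEquiv.ofRingEquiv (f := σ.toRingEquiv) (fun q => by simp), fun z => rfl⟩
    obtain ⟨τ, hτ⟩ : ∃ τ : M ≃ₐ[ℚ] M, ∀ m, algebraMap M Ω (τ m) = σ (algebraMap M Ω m) := by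
      refine ⟨σ'.restrictNormal M, fun m => ?_⟩
      rw [AlgEquiv.restrictNormal_commutes, hσ']
    obtain ⟨h0, hh0⟩ : ∃ h0 : M[X], h0 = h.map (τ.symm : M →+* M) := ⟨_, rfl⟩
    have e1 : h0.map (τ : M →+* M) = h := by
      rw [hh0, Polynomial.map_map]
      have e : (τ : M →+* M).comp (τ.symm : M →+* M) = RingHom.id M :=
        RingHom.ext fun m => τ.apply_symm_apply m
      rw [e, Polynomial.map_id]
    have e2 : aeval (algebraMap L Ω θ) h0 = x := by
      apply σ.injective
      rw [← hh, ← e1]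
      rw [aeval_def, aeval_def, eval₂_map]
      have e3 : σ (eval₂ (algebraMap M Ω) (algebraMap L Ω θ) h0) =
          eval₂ ((σ : Ω →+* Ω).comp (algebraMap M Ω)) (σ (algebraMap L Ω θ)) h0 :=
        Polynomial.hom_eval₂ h0 (algebraMap M Ω) (σ : Ω →+* Ω) (algebraMap L Ω θ)
      rw [e3, σ.commutes]
      congr 1
      exact RingHom.ext fun m => (hτ m).symm
    obtain ⟨w', s, hs, hov⟩ := h2 M R τ.toRingEquiv w
    have h4 := pl_map s (hx w' ((hov 2).mpr hw) h0 e2)
    rw [Polynomial.map_map] at h4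
    have e5 : s.comp (algebraMap M (w'.adicCompletion M)) =
        (algebraMap M (w.adicCompletion M)).comp (τ : M →+* M) :=
      RingHom.ext fun m => hs m
    rw [e5, ← Polynomial.map_map, e1] at h4
    exact h4

end Pool.Agent.N61.PV
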